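import Mathlib
import Pool.Agent.Lib_MP_051624_all.AFin

set_option autoImplicit false

namespace Pool.Agent.Results.MP_051624_al.OneRelator

/-- The normalised Hamming length of a permutation of a set with `n` elements: the number of the
points which are moved, divided by `n`. -/
noncomputable def hlen {n : ℕ} (σ : Equiv.Perm (Fin n)) : ℝ :=
  ({i : Fin n | σ i ≠ i}.ncard : ℝ) / n

/-- Soficity, as in the problem. -/
def Sofic (G : Type) [Group G] : Prop :=
  ∀ F : Finset G, (1 : G) ∉ F → ∀ ε : ℝ, 0 < ε →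
    ∃ n : ℕ, 1 ≤ n ∧ ∃ Φ : G → Equiv.Perm (Fin n), Φ 1 = 1 ∧
      ∀ g ∈ F, ∀ h ∈ F,
        hlen (Φ (g * h) * (Φ h)⁻¹ * (Φ g)⁻¹) < ε ∧ 1 - ε < hlen (Φ g)

private theorem hlen_eq {n : ℕ} (σ : Equiv.Perm (Fin n)) :
    hlen σ = (σ.support.card : ℝ) / (n : ℝ) := by
  unfold hlen
  rw [← Set.ncard_coe_finset]
  congr 3
  ext i
  simp

/-- Every one-relator group is sofic: for every set `X` of generators (finite or infinite) and
every element `r` of the free group on `X`, the group `⟨X | r⟩` is sofic. -/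
theorem result (X : Type) (r : FreeGroup X) : Sofic (PresentedGroup {r}) := by
  intro F hF ε hε
  obtain ⟨n, hn, Φ, h1, h2⟩ := ORel.all_sofic X r F hF ε hε
  refine ⟨n, hn, Φ, h1, fun g hg h hh => ?_⟩
  rw [hlen_eq, hlen_eq]
  exact h2 g hg h hh

end Pool.Agent.Results.MP_051624_al.OneRelator
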